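import Pool.Agent.H29.ENR.Stmts

/-!
Row CYP of board enr: preparation of the data of the cyclic type.
-/

set_option autoImplicit false

namespace Pool.ENR

theorem cyp_conj {T : Type} [Group T] (s n : T) (j : ℕ) (h : n * s * n⁻¹ = s ^ j) (i : ℕ) :
    n ^ i * s * (n ^ i)⁻¹ = s ^ (j ^ i) := by
  induction i with
  | zero => simp
  | succ i ih =>
    calc n ^ (i + 1) * s * (n ^ (i + 1))⁻¹ = n * (n ^ i * s * (n ^ i)⁻¹) * n⁻¹ := by
          rw [pow_succ']; group
      _ = n * s ^ (j ^ i) * n⁻¹ := by rw [ih]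
      _ = (n * s * n⁻¹) ^ (j ^ i) := by rw [conj_pow]
      _ = s ^ (j ^ (i + 1)) := by rw [h, ← pow_mul, pow_succ']

theorem cyp_pow {T : Type} [Group T] (s n : T) (j u : ℕ) (h : n * s * n⁻¹ = s ^ j) (e : ℕ) :
    (s ^ u * n) ^ e = s ^ (u * ∑ i ∈ Finset.range e, j ^ i) * n ^ e := by
  induction e with
  | zero => simp
  | succ e ih =>
    rw [pow_succ', ih, geom_sum_succ, pow_succ' n e]
    generalize (∑ i ∈ Finset.range e, j ^ i) = m
    have h1 : n * s ^ (u * m) = s ^ (j * (u * m)) * n := by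
      have h2 : n * s ^ (u * m) * n⁻¹ = s ^ (j * (u * m)) := by
        rw [← conj_pow, h, ← pow_mul]
      rw [← h2]; group
    calc s ^ u * n * (s ^ (u * m) * n ^ e) = s ^ u * (n * s ^ (u * m)) * n ^ e := by group
      _ = s ^ u * (s ^ (j * (u * m)) * n) * n ^ e := by rw [h1]
      _ = (s ^ u * s ^ (j * (u * m))) * (n * n ^ e) := by group
      _ = s ^ (u * (j * m + 1)) * (n * n ^ e) := by
          rw [← pow_add]; congr 2; ring

theorem cyp_thm : CYPStmt := by
  intro T _ p c σ hp hc hC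
  obtain ⟨s, n, lam, j, u, hs, hσs, hlam, hn, hj, hσn, hu⟩ := hC
  have : Fact p.Prime := ⟨hp⟩
  -- `p` does not divide `j`
  have hpj : ¬ p ∣ j := by
    intro hd
    have h1 : orderOf (s ^ j) = p ^ c := by
      rw [← hn, ← hs]
      have := orderOf_injective (MulAut.conj n).toMonoidHom (MulAut.conj n).injective s
      simpa [MulAut.conj_apply] using this
    have h2 : orderOf (s ^ j) ∣ p ^ (c - 1) := by
      apply orderOf_dvd_of_pow_eq_one
      obtain ⟨j', rfl⟩ := hd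
      rw [← pow_mul]
      apply (orderOf_dvd_iff_pow_eq_one).mp
      rw [hs]
      have : p ^ c = p * p ^ (c - 1) := by
        rw [← pow_succ']; congr 1; omega
      rw [this, mul_right_comm]
      exact Dvd.intro _ rfl
    rw [h1] at h2
    have h3 := (Nat.pow_dvd_pow_iff_le_right hp.one_lt).mp h2
    omega
  have hj0 : (j : ZMod p) ≠ 0 := by
    rw [Ne, ZMod.natCast_eq_zero_iff]; exact hpj
  have hj1 : (j : ZMod p) ≠ 1 := by
    intro h
    apply hj
    have h2 : ((j : ℕ) : ZMod p) = ((1 : ℕ) : ZMod p) := by simpa using h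
    exact (ZMod.natCast_eq_natCast_iff _ _ _).mp h2
  set o := orderOf (j : ZMod p) with ho
  have hod : o ∣ p - 1 := orderOf_dvd_of_pow_eq_one (ZMod.pow_card_sub_one_eq_one hj0)
  have hp1 : 0 < p - 1 := by have := hp.two_le; omega
  have ho0 : 0 < o := Nat.pos_of_dvd_of_pos hod hp1
  have ho1 : o ≠ 1 := by
    intro h
    exact hj1 (orderOf_eq_one_iff.mp h)
  set r := o.minFac with hr
  have hrp : r.Prime := Nat.minFac_prime ho1
  have hro : r ∣ o := Nat.minFac_dvd o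
  obtain ⟨k, hk⟩ := hro
  have hk0 : 0 < k := by
    rcases Nat.eq_zero_or_pos k with h | h
    · rw [h, mul_zero] at hk; omega
    · exact h
  have hko : k < o := by
    rw [hk]
    have := hrp.two_le
    nlinarith
  have hjk : (j : ZMod p) ^ k ≠ 1 := by
    intro h
    have := orderOf_le_of_pow_eq_one hk0 h
    omega
  have hrnp : r ≠ p := by
    intro h
    have h1 : r ≤ p - 1 := Nat.le_of_dvd hp1 (dvd_trans ⟨k, hk⟩ hod)
    have := hp.two_le
    omega
  set e := k * p ^ c with he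
  -- the new data
  have hconj := cyp_conj s n j hn
  have hn1 : n ^ e * s * (n ^ e)⁻¹ = s ^ (j ^ e) := hconj e
  have hj1e : ((j ^ e : ℕ) : ZMod p) = (j : ZMod p) ^ k := by
    push_cast
    rw [he, pow_mul, ZMod.pow_card_pow]
  have hj1ne : ¬ j ^ e ≡ 1 [MOD p] := by
    intro h
    have h2 := (ZMod.natCast_eq_natCast_iff _ _ _).mpr h
    rw [hj1e] at h2
    apply hjk
    simpa using h2
  -- `j ^ (e * r) ≡ 1 mod p ^ c`
  have hmain : ((p ^ c : ℕ) : ℤ) ∣ ((j ^ e : ℕ) : ℤ) ^ r - 1 := by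
    have h1 : ((p : ℕ) : ℤ) ∣ (j : ℤ) ^ o - 1 := by
      have h2 : ((j : ℤ) ^ o - 1 : ℤ) = (((j : ℤ) ^ o - 1 : ℤ)) := rfl
      rw [← ZMod.intCast_zmod_eq_zero_iff_dvd]
      push_cast
      rw [ho, pow_orderOf_eq_one, sub_self]
    have h3 := dvd_sub_pow_of_dvd_sub (R := ℤ) (p := p) (a := (j : ℤ) ^ o) (b := 1) h1 c
    rw [one_pow, ← pow_mul] at h3
    have h4 : ((j ^ e : ℕ) : ℤ) ^ r = (j : ℤ) ^ (o * p ^ c) := by
      push_cast
      rw [← pow_mul, he, hk]
      congr 1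
      ring
    rw [h4]
    refine dvd_trans ?_ h3
    push_cast
    exact pow_dvd_pow _ (by omega)
  have hj1pos : 1 ≤ j ^ e := Nat.one_le_pow _ _ (Nat.pos_of_ne_zero (by rintro rfl; exact hpj (dvd_zero p)))
  have hmod : (j ^ e) ^ r ≡ 1 [MOD p ^ c] := by
    have h1 : (1 : ℕ) ≡ (j ^ e) ^ r [MOD p ^ c] := by
      rw [Nat.modEq_iff_dvd]
      push_cast at hmain ⊢
      exact hmain
    exact h1.symm
  have hcomm : (n ^ e) ^ r * s = s * (n ^ e) ^ r := by
    have h1 := cyp_conj s (n ^ e) (j ^ e) hn1 r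
    have h2 : s ^ ((j ^ e) ^ r) = s ^ 1 := by
      rw [pow_eq_pow_iff_modEq, hs]
      exact hmod
    rw [h2, pow_one] at h1
    exact mul_inv_eq_iff_eq_mul.mp h1
  -- the sum
  have hσn1 : σ (n ^ e) = s ^ (u * ∑ i ∈ Finset.range e, j ^ i) * n ^ e := by
    rw [map_pow, hσn]
    exact cyp_pow s n j u hn e
  have hsum : ¬ p ∣ ∑ i ∈ Finset.range e, j ^ i := by
    intro h
    have h1 : ((∑ i ∈ Finset.range e, j ^ i : ℕ) : ZMod p) = 0 := by
      rw [ZMod.natCast_eq_zero_iff]; exact h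
    push_cast at h1
    have h2 := geom_sum_mul (j : ZMod p) e
    rw [h1, zero_mul] at h2
    have h3 : ((j ^ e : ℕ) : ZMod p) = 1 := by
      push_cast
      exact (sub_eq_zero.mp h2.symm)
    rw [hj1e] at h3
    exact hjk h3
  have hu1 : ¬ p ∣ u * ∑ i ∈ Finset.range e, j ^ i := by
    intro h
    rcases hp.dvd_mul.mp h with h | h
    · exact hu h
    · exact hsum h
  have hfix : σ ((n ^ e) ^ r) = (n ^ e) ^ r := by
    rw [map_pow, hσn1, cyp_pow s (n ^ e) (j ^ e) _ hn1 r]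
    have h1 : ((p ^ c : ℕ) : ℤ) ∣ ((∑ i ∈ Finset.range r, (j ^ e) ^ i : ℕ) : ℤ) := by
      have h2 := geom_sum_mul ((j ^ e : ℕ) : ℤ) r
      rw [← h2] at hmain
      have h3 : IsCoprime ((p ^ c : ℕ) : ℤ) (((j ^ e : ℕ) : ℤ) - 1) := by
        push_cast
        apply IsCoprime.pow_left
        rw [(Nat.prime_iff_prime_int.mp hp).coprime_iff_not_dvd]
        intro h4
        apply hj1ne
        apply Nat.ModEq.symm
        rw [Nat.modEq_iff_dvd]
        push_cast
        exact h4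
      have h5 := h3.dvd_of_dvd_mul_right hmain
      push_cast at h5 ⊢
      exact h5
    have h6 : p ^ c ∣ ∑ i ∈ Finset.range r, (j ^ e) ^ i := Int.natCast_dvd_natCast.mp h1
    have h7 : s ^ ((u * ∑ i ∈ Finset.range e, j ^ i) * ∑ i ∈ Finset.range r, (j ^ e) ^ i) = 1 := by
      apply (orderOf_dvd_iff_pow_eq_one).mp
      rw [hs]
      exact dvd_mul_of_dvd_right h6 _
    rw [h7, one_mul]
  exact ⟨s, n ^ e, lam, j ^ e, _, r, hs, hσs, hlam, hn1, hj1ne, hσn1, hu1, hrp, hrnp, hcomm, hfix⟩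

end Pool.ENR
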