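import Pool.Agent.H36.ENR.Stmts2

/-!
# Row `SQE` of the board `enr`: sequences in `TSq τ k` with prescribed values at `0, .., k - 1`
-/

set_option autoImplicit false

namespace Pool.ENR

open Pool.Agent.H81.ENG Pool.Agent.H55.NEU

theorem sqe_thm : SQEStmt := by
  intro T _ τ k hk h
  have hk0 : (k : ℤ) ≠ 0 := by exact_mod_cast hk.ne'
  refine ⟨⟨fun i => (τ ^ (i / (k : ℤ))) (h (i % (k : ℤ)).toNat), ?_⟩, ?_⟩
  · intro i
    show (τ ^ ((i + k) / (k : ℤ))) (h ((i + k) % (k : ℤ)).toNat) =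
      τ ((τ ^ (i / (k : ℤ))) (h (i % (k : ℤ)).toNat))
    have h1 : (i + k) / (k : ℤ) = 1 + i / k := by
      rw [Int.add_ediv_of_dvd_right (dvd_refl _), Int.ediv_self hk0, add_comm]
    have h2 : (i + k) % (k : ℤ) = i % k := by
      rw [Int.add_emod_right]
    rw [h1, h2, zpow_add, zpow_one, MulAut.mul_apply]
  · intro l hl
    have hl0 : (0 : ℤ) ≤ l := by positivity
    have hlk : (l : ℤ) < k := by exact_mod_cast hl
    show (τ ^ ((l : ℤ) / (k : ℤ))) (h ((l : ℤ) % (k : ℤ)).toNat) = h l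
    rw [Int.ediv_eq_zero_of_lt hl0 hlk, Int.emod_eq_of_lt hl0 hlk, zpow_zero, MulAut.one_apply,
      Int.toNat_natCast]

end Pool.ENR
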