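import Pool.Agent.H29.ENR.Stmts8

/-!
# Row `AS1` of the board `enr`: the law of the almost simple group `T ⟨σ⟩`
-/

set_option autoImplicit false

namespace Pool.ENR

open Pool.Agent.H81.ENG

theorem as1_conj {T : Type} [Group T] (τ : MulAut T) (x : T) :
    (MulAut.conj (τ x) : MulAut T) = τ * MulAut.conj x * τ⁻¹ := by
  ext z
  rw [MulAut.mul_apply, MulAut.mul_apply, MulAut.conj_apply, MulAut.conj_apply, map_mul, map_mul,
    map_inv, MulAut.apply_inv_self]

/-- `t ↦ conj t` -/
def as1Hom {T : Type} [Group T] (σ : MulAut T) : T →* ASg σ where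
  toFun t := ⟨MulAut.conj t, Subgroup.subset_closure (Or.inl ⟨t, rfl⟩)⟩
  map_one' := Subtype.ext (map_one MulAut.conj)
  map_mul' a b := Subtype.ext (map_mul MulAut.conj a b)

theorem as1_thm : AS1Stmt := by
  intro T _ σ hZ d h
  have hinj : Function.Injective (as1Hom σ) := by
    rw [injective_iff_map_eq_one]
    intro t ht
    exact hZ t (congrArg Subtype.val ht)
  refine ⟨?_, ?_⟩
  · obtain ⟨r, hr⟩ := h
    have key : ∀ (n : ℕ) (x y : T), as1Hom σ ((fun z : T => z⁻¹ * y⁻¹ * z * y)^[n] x) =
        (fun z : ASg σ => z⁻¹ * (as1Hom σ y)⁻¹ * z * as1Hom σ y)^[n] (as1Hom σ x) := by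
      intro n
      induction n with
      | zero => intro x y; rfl
      | succ n ih =>
        intro x y
        rw [Function.iterate_succ_apply, Function.iterate_succ_apply, ih]
        congr 1
        simp only [map_mul, map_inv]
    refine ⟨r, fun x y => hinj ?_⟩
    rw [key, key, hr]
  · intro t
    have hτ : MulAut.conj t * σ ∈ ASg σ :=
      (ASg σ).mul_mem (Subgroup.subset_closure (Or.inl ⟨t, rfl⟩))
        (Subgroup.subset_closure (Or.inr rfl))
    have h1 := h.sl (⟨MulAut.conj t * σ, hτ⟩ : ASg σ)⁻¹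
    rw [inv_inv] at h1
    refine h1.of_inj (as1Hom σ) hinj fun x => ?_
    apply Subtype.ext
    rw [MulAut.conj_apply]
    exact as1_conj (MulAut.conj t * σ) x

end Pool.ENR
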